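import Pool.Agent.W774.TL.Stm

set_option autoImplicit false

namespace Pool.Agent.W333.TL.SMOOTH

open Pool.Agent.W774.TL Set Filter Topology

noncomputable def T (j : ℤ) : ℝ := (3:ℝ) ^ j.natAbs

theorem one_le_T (j : ℤ) : 1 ≤ T j := one_le_pow₀ (by norm_num)

theorem T_pos (j : ℤ) : 0 < T j := lt_of_lt_of_le one_pos (one_le_T j)

theorem abs_le_T (j : ℤ) : |(j:ℝ)| ≤ T j := by
  have h1 : j.natAbs < 3 ^ j.natAbs := Nat.lt_pow_self (by norm_num)
  have h2 : ((j.natAbs : ℕ) : ℝ) ≤ T j := by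
    unfold T
    exact_mod_cast h1.le
  have h3 : |(j:ℝ)| = (j.natAbs : ℝ) := by
    rw [Nat.cast_natAbs, Int.cast_abs]
  rw [h3]; exact h2

noncomputable def L1 : ℝ × ℝ × ℝ →L[ℝ] ℝ :=
  (ContinuousLinearMap.fst ℝ ℝ ℝ).comp (ContinuousLinearMap.snd ℝ ℝ (ℝ × ℝ))

noncomputable def L2 (j : ℤ) : ℝ × ℝ × ℝ →L[ℝ] ℝ :=
  (2 * Real.pi) • (ContinuousLinearMap.fst ℝ ℝ (ℝ × ℝ) -
    (j : ℝ) • (ContinuousLinearMap.snd ℝ ℝ ℝ).comp (ContinuousLinearMap.snd ℝ ℝ (ℝ × ℝ)))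

theorem L1_apply (q : ℝ × ℝ × ℝ) : L1 q = q.2.1 := by simp [L1]

theorem L2_apply (j : ℤ) (q : ℝ × ℝ × ℝ) : L2 j q = 2 * Real.pi * (q.1 - j * q.2.2) := by
  simp [L2]

theorem L1_norm : ‖L1‖ ≤ 1 := by
  refine ContinuousLinearMap.opNorm_le_bound _ zero_le_one fun q => ?_
  have : ‖q.2.1‖ ≤ ‖q‖ := (norm_fst_le q.2).trans (norm_snd_le q)
  rw [L1_apply, one_mul]
  exact this

theorem L2_norm (j : ℤ) : ‖L2 j‖ ≤ 4 * Real.pi * T j := by
  have hT := T_pos j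
  have hT1 := one_le_T j
  have hpi := Real.pi_pos
  refine ContinuousLinearMap.opNorm_le_bound _ (by positivity) fun q => ?_
  have h1 : |q.1| ≤ ‖q‖ := norm_fst_le q
  have h2 : |q.2.2| ≤ ‖q‖ := (norm_snd_le q.2).trans (norm_snd_le q)
  have h4 := abs_le_T j
  have h0 : 0 ≤ ‖q‖ := norm_nonneg q
  rw [L2_apply, Real.norm_eq_abs, abs_mul, abs_of_pos (by positivity : (0:ℝ) < 2 * Real.pi)]
  have h5 : |q.1 - j * q.2.2| ≤ 2 * T j * ‖q‖ := by
    calc |q.1 - j * q.2.2| ≤ |q.1| + |(j:ℝ) * q.2.2| := abs_sub _ _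
      _ = |q.1| + |(j:ℝ)| * |q.2.2| := by rw [abs_mul]
      _ ≤ ‖q‖ + T j * ‖q‖ := by gcongr
      _ ≤ 2 * T j * ‖q‖ := by nlinarith
  calc 2 * Real.pi * |q.1 - j * q.2.2| ≤ 2 * Real.pi * (2 * T j * ‖q‖) := by gcongr
    _ = 4 * Real.pi * T j * ‖q‖ := by ring

theorem sin_lin (L : ℝ × ℝ × ℝ →L[ℝ] ℝ) (i : ℕ) (q : ℝ × ℝ × ℝ) :
    ‖iteratedFDeriv ℝ i (Real.sin ∘ L) q‖ ≤ ‖L‖ ^ i := by
  rw [ContinuousLinearMap.iteratedFDeriv_comp_right L (n := (i : ℕ∞)) Real.contDiff_sin q le_rfl]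
  refine (ContinuousMultilinearMap.norm_compContinuousLinearMap_le _ _).trans ?_
  rw [norm_iteratedFDeriv_eq_norm_iteratedDeriv]
  simp only [Finset.prod_const, Finset.card_univ, Fintype.card_fin]
  have h1 : ‖iteratedDeriv i Real.sin (L q)‖ ≤ 1 := Real.abs_iteratedDeriv_sin_le_one i (L q)
  exact mul_le_of_le_one_left (by positivity) h1

/-- the exponent -/
noncomputable def psi (R : ℝ) (j : ℤ) (q : ℝ × ℝ × ℝ) : ℝ :=
  ((j : ℝ) * R) • (Real.sin ∘ L1) q + (-(T j / (2 * Real.pi))) • (Real.sin ∘ (L2 j)) q +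
    (-(T j * (3 / 4)))

theorem sinL_contDiff (L : ℝ × ℝ × ℝ →L[ℝ] ℝ) (n : WithTop ℕ∞) : ContDiff ℝ n (Real.sin ∘ L) :=
  Real.contDiff_sin.comp L.contDiff

theorem psi_contDiff (R : ℝ) (j : ℤ) (n : WithTop ℕ∞) : ContDiff ℝ n (psi R j) := by
  unfold psi
  exact (((sinL_contDiff L1 n).const_smul _).add ((sinL_contDiff (L2 j) n).const_smul _)).add
    contDiff_const

theorem psi_bound (R : ℝ) (hR : 0 ≤ R) (j : ℤ) (i : ℕ) (hi : 1 ≤ i) (q : ℝ × ℝ × ℝ) :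
    ‖iteratedFDeriv ℝ i (psi R j) q‖ ≤ ((1 + R) * (4 * Real.pi) * T j ^ 2) ^ i := by
  have hT := T_pos j
  have hT1 := one_le_T j
  have hpi := Real.pi_pos
  have hpi3 := Real.pi_gt_three
  have e1 : psi R j = (fun q => ((j : ℝ) * R) • (Real.sin ∘ L1) q) +
      (fun q => (-(T j / (2 * Real.pi))) • (Real.sin ∘ (L2 j)) q) +
      (fun _ => (-(T j * (3 / 4)))) := by
    funext q
    simp [psi]
  have c1 : ContDiff ℝ i (fun q => ((j : ℝ) * R) • (Real.sin ∘ L1) q) :=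
    (sinL_contDiff L1 i).const_smul _
  have c2 : ContDiff ℝ i (fun q => (-(T j / (2 * Real.pi))) • (Real.sin ∘ (L2 j)) q) :=
    (sinL_contDiff (L2 j) i).const_smul _
  have e2 : iteratedFDeriv ℝ i (psi R j) q =
      ((j : ℝ) * R) • iteratedFDeriv ℝ i (Real.sin ∘ L1) q +
      (-(T j / (2 * Real.pi))) • iteratedFDeriv ℝ i (Real.sin ∘ (L2 j)) q := by
    have c12 : ContDiff ℝ i ((fun q => ((j : ℝ) * R) • (Real.sin ∘ L1) q) +
      (fun q => (-(T j / (2 * Real.pi))) • (Real.sin ∘ (L2 j)) q)) := c1.add c2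
    rw [e1, iteratedFDeriv_add_apply c12.contDiffAt contDiff_const.contDiffAt,
      iteratedFDeriv_add_apply c1.contDiffAt c2.contDiffAt,
      iteratedFDeriv_const_smul_apply' (sinL_contDiff L1 i).contDiffAt,
      iteratedFDeriv_const_smul_apply' (sinL_contDiff (L2 j) i).contDiffAt,
      iteratedFDeriv_const_of_ne (by omega)]
    simp
  rw [e2]
  have b1 := sin_lin L1 i q
  have b2 := sin_lin (L2 j) i q
  have b3 : ‖L1‖ ^ i ≤ 1 := pow_le_one₀ (norm_nonneg _) L1_norm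
  have b4 : ‖L2 j‖ ^ i ≤ (4 * Real.pi * T j) ^ i :=
    pow_le_pow_left₀ (norm_nonneg _) (L2_norm j) i
  have b5 := abs_le_T j
  have n1 : ‖((j : ℝ) * R) • iteratedFDeriv ℝ i (Real.sin ∘ L1) q‖ ≤ T j * R := by
    rw [norm_smul, Real.norm_eq_abs, abs_mul, abs_of_nonneg hR]
    calc |(j:ℝ)| * R * ‖iteratedFDeriv ℝ i (Real.sin ∘ L1) q‖ ≤ T j * R * 1 := by
          gcongr
          exact b1.trans b3
      _ = T j * R := mul_one _
  have n2 : ‖(-(T j / (2 * Real.pi))) • iteratedFDeriv ℝ i (Real.sin ∘ (L2 j)) q‖ ≤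
      T j * (4 * Real.pi * T j) ^ i := by
    rw [norm_smul, norm_neg, Real.norm_eq_abs, abs_of_pos (by positivity)]
    have h1 : T j / (2 * Real.pi) ≤ T j := div_le_self hT.le (by linarith)
    gcongr
    exact b2.trans b4
  have k1 : T j ≤ T j ^ i := le_self_pow₀ hT1 (by omega)
  have k2 : 1 + R ≤ (1 + R) ^ i := le_self_pow₀ (by linarith) (by omega)
  have k3 : 1 ≤ (4 * Real.pi * T j) ^ i := by
    apply one_le_pow₀
    nlinarith
  calc ‖((j : ℝ) * R) • iteratedFDeriv ℝ i (Real.sin ∘ L1) q +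
      (-(T j / (2 * Real.pi))) • iteratedFDeriv ℝ i (Real.sin ∘ (L2 j)) q‖
      ≤ T j * R + T j * (4 * Real.pi * T j) ^ i := (norm_add_le _ _).trans (add_le_add n1 n2)
    _ ≤ T j * R * (4 * Real.pi * T j) ^ i + T j * (4 * Real.pi * T j) ^ i := by
        have k4 : T j * R ≤ T j * R * (4 * Real.pi * T j) ^ i :=
          le_mul_of_one_le_right (by positivity) k3
        linarith
    _ = T j * (1 + R) * (4 * Real.pi * T j) ^ i := by ring
    _ ≤ T j ^ i * (1 + R) ^ i * (4 * Real.pi * T j) ^ i := by gcongr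
    _ = ((1 + R) * (4 * Real.pi) * T j ^ 2) ^ i := by
        rw [← mul_pow, ← mul_pow]
        congr 1
        ring

theorem exp_bound (i : ℕ) (y : ℝ) : ‖iteratedFDeriv ℝ i Real.exp y‖ = Real.exp y := by
  rw [norm_iteratedFDeriv_eq_norm_iteratedDeriv, iteratedDeriv_eq_iterate, Real.iter_deriv_exp,
    Real.norm_eq_abs, abs_of_pos (Real.exp_pos y)]

theorem exp_psi (R : ℝ) (j : ℤ) (q : ℝ × ℝ × ℝ) :
    Real.exp (psi R j q) = E j q.1 (R * Real.sin q.2.1) q.2.2 := by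
  unfold psi E V S
  congr 1
  simp only [Function.comp_apply, L1_apply, L2_apply, smul_eq_mul, T]
  ring

theorem sum_smooth (h1 : P_SUM) (R : ℝ) (hR : 0 ≤ R) :
    ContDiff ℝ (⊤ : ℕ∞) (fun q : ℝ × ℝ × ℝ => ∑' j : ℤ, E j q.1 (R * Real.sin q.2.1) q.2.2) := by
  choose u hu1 hu2 using fun k : ℕ => h1 (2 * k) R
  have hpi := Real.pi_pos
  have e0 : (fun q : ℝ × ℝ × ℝ => ∑' j : ℤ, E j q.1 (R * Real.sin q.2.1) q.2.2) =
      fun q => ∑' j : ℤ, (Real.exp ∘ psi R j) q := by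
    funext q
    exact tsum_congr fun j => (exp_psi R j q).symm
  rw [e0]
  refine contDiff_tsum (v := fun k j => (k.factorial : ℝ) * ((1 + R) * (4 * Real.pi)) ^ k * u k j)
    ?_ ?_ ?_
  · intro j
    exact Real.contDiff_exp.comp (psi_contDiff R j _)
  · intro k _
    exact (hu1 k).mul_left _
  · intro k j q _
    have h2 : ‖iteratedFDeriv ℝ k (Real.exp ∘ psi R j) q‖ ≤
        (k.factorial : ℝ) * Real.exp (psi R j q) * ((1 + R) * (4 * Real.pi) * T j ^ 2) ^ k := by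
      refine norm_iteratedFDeriv_comp_le (N := (k : ℕ∞)) Real.contDiff_exp (psi_contDiff R j _)
        le_rfl q ?_ ?_
      · intro i _
        rw [exp_bound]
      · intro i hi _
        exact psi_bound R hR j i hi q
    refine h2.trans ?_
    have h3 := hu2 k j q.1 (R * Real.sin q.2.1) q.2.2 (by
      rw [abs_mul, abs_of_nonneg hR]
      exact mul_le_of_le_one_right hR (Real.abs_sin_le_one _))
    have h4 : (k.factorial : ℝ) * Real.exp (psi R j q) *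
        ((1 + R) * (4 * Real.pi) * T j ^ 2) ^ k =
        (k.factorial : ℝ) * ((1 + R) * (4 * Real.pi)) ^ k *
          (((3 : ℝ) ^ j.natAbs) ^ (2 * k) * E j q.1 (R * Real.sin q.2.1) q.2.2) := by
      rw [exp_psi, mul_pow, T, ← pow_mul]
      ring
    rw [h4]
    exact mul_le_mul_of_nonneg_left h3 (by positivity)

theorem smooth_thm (h1 : P_SUM) : P_SMOOTH := by
  unfold P_SMOOTH
  rw [contDiff_iff_contDiffAt]
  intro q0
  set R : ℝ := |q0.2.1| + 1 with hR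
  have hRpos : 0 < R := by positivity
  have hG := sum_smooth h1 R hRpos.le
  have habs : |q0.2.1 / R| < 1 := by
    rw [abs_div, abs_of_pos hRpos, div_lt_one hRpos]
    linarith
  have hH : ContDiffAt ℝ (⊤ : ℕ∞)
      (fun q : ℝ × ℝ × ℝ => (q.1, Real.arcsin (q.2.1 / R), q.2.2)) q0 := by
    refine ContDiffAt.prodMk contDiffAt_fst (ContDiffAt.prodMk ?_ ?_)
    · have ha : ContDiffAt ℝ (⊤ : ℕ∞) Real.arcsin (q0.2.1 / R) := by
        apply Real.contDiffAt_arcsin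
        · exact (abs_lt.mp habs).1.ne'
        · exact (abs_lt.mp habs).2.ne
      have hb : ContDiffAt ℝ (⊤ : ℕ∞) (fun q : ℝ × ℝ × ℝ => q.2.1 / R) q0 := by
        fun_prop
      exact ContDiffAt.comp (g := Real.arcsin) (f := fun q : ℝ × ℝ × ℝ => q.2.1 / R) q0 ha hb
    · fun_prop
  have hcomp := ContDiffAt.comp q0 hG.contDiffAt hH
  refine hcomp.congr_of_eventuallyEq ?_
  have hopen : IsOpen {q : ℝ × ℝ × ℝ | |q.2.1 / R| < 1} := by
    apply isOpen_lt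
    · fun_prop
    · fun_prop
  filter_upwards [hopen.mem_nhds habs] with q hq
  have hq' : |q.2.1 / R| < 1 := hq
  have h5 := abs_lt.mp hq'
  simp only [Function.comp_apply]
  rw [Real.sin_arcsin h5.1.le h5.2.le, mul_div_cancel₀ _ hRpos.ne']
  rfl

end Pool.Agent.W333.TL.SMOOTH
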